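import Pool.Agent.H22.HD.Stmts

/-!
# Project HD, module ONE: the norm of one factor at a real point
-/

set_option autoImplicit false

open MeasureTheory ProbabilityTheory

namespace Pool.Agent.H22.HD

namespace ONEaux

theorem bern (p t : ℝ) (hp : 1 < p) (hp2 : p < 2) (ht : -1 < t) :
    (1 + t) ^ p ≤ 1 + p * t + (p - 1) * t ^ 2 := by
  have h0 : 0 < 1 + t := by linarith
  have h1 : (1 + t) ^ (p - 1) ≤ 1 + (p - 1) * t :=
    rpow_one_add_le_one_add_mul_self ht.le (by linarith) (by linarith)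
  have h2 : (1 + t) ^ p = (1 + t) * (1 + t) ^ (p - 1) := by
    rw [Real.rpow_sub_one h0.ne']
    field_simp
  rw [h2]
  nlinarith [mul_le_mul_of_nonneg_left h1 h0.le]

end ONEaux

open ONEaux in
theorem one_thm : ONEStmt := by
  intro Ω _ μ _ p hp hp2 f f0 hf hf0 hb h0 ε hε
  have hp0 : 0 < p := by linarith
  have hpne : ENNReal.ofReal p ≠ 0 := by
    rw [Ne, ENNReal.ofReal_eq_zero]
    linarith
  have hp1 : (1 : ENNReal) ≤ ENNReal.ofReal p := by
    rw [← ENNReal.ofReal_one]
    exact ENNReal.ofReal_le_ofReal hp.le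
  have hε1 : |ε| ≤ 1 / 2 := hε
  have hef : ∀ x, |ε * f0 x| ≤ 1 / 2 := by
    intro x
    rw [abs_mul]
    nlinarith [abs_nonneg ε, abs_nonneg (f0 x), hb x]
  have hpos : ∀ x, 0 < 1 + ε * f0 x := by
    intro x
    have := (abs_le.1 (hef x)).1
    linarith
  have hi0 : Integrable f0 μ := by
    refine Integrable.of_bound hf0.aestronglyMeasurable 1 (Filter.Eventually.of_forall fun x => ?_)
    rw [Real.norm_eq_abs]
    exact hb x
  have hi2 : Integrable (fun x => f0 x ^ 2) μ := by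
    refine Integrable.of_bound (hf0.pow_const 2).aestronglyMeasurable 1
      (Filter.Eventually.of_forall fun x => ?_)
    rw [Real.norm_eq_abs, abs_pow]
    exact pow_le_one₀ (abs_nonneg _) (hb x)
  have hI : Integrable (fun x => 1 + p * (ε * f0 x) + (p - 1) * (ε * f0 x) ^ 2) μ := by
    have : (fun x => 1 + p * (ε * f0 x) + (p - 1) * (ε * f0 x) ^ 2) =
        fun x => 1 + (p * ε) * f0 x + ((p - 1) * ε ^ 2) * f0 x ^ 2 := by
      funext x
      ring
    rw [this]
    exact ((integrable_const _).add (hi0.const_mul _)).add (hi2.const_mul _)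
  have hint : ∫ x, (1 + p * (ε * f0 x) + (p - 1) * (ε * f0 x) ^ 2) ∂μ =
      1 + (p - 1) * ε ^ 2 * ∫ x, f0 x ^ 2 ∂μ := by
    have : (fun x => 1 + p * (ε * f0 x) + (p - 1) * (ε * f0 x) ^ 2) =
        fun x => 1 + (p * ε) * f0 x + ((p - 1) * ε ^ 2) * f0 x ^ 2 := by
      funext x
      ring
    rw [this]
    have ha : Integrable (fun x => 1 + (p * ε) * f0 x) μ := (integrable_const _).add (hi0.const_mul _)
    have hbb : Integrable (fun x => ((p - 1) * ε ^ 2) * f0 x ^ 2) μ := hi2.const_mul _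
    have hc : Integrable (fun x => (p * ε) * f0 x) μ := hi0.const_mul _
    rw [integral_add ha hbb, integral_add (integrable_const _) hc, integral_const_mul,
      integral_const_mul, h0]
    simp
  have hv : 0 ≤ ∫ x, f0 x ^ 2 ∂μ := integral_nonneg fun x => sq_nonneg _
  have hV : 0 ≤ (p - 1) * ε ^ 2 * ∫ x, f0 x ^ 2 ∂μ :=
    mul_nonneg (mul_nonneg (by linarith) (sq_nonneg _)) hv
  have key : eLpNorm (fun x => 1 + ε * f0 x) (ENNReal.ofReal p) μ ≤
      ENNReal.ofReal (1 + (p - 1) * ε ^ 2 * ∫ x, f0 x ^ 2 ∂μ) := by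
    rw [eLpNorm_eq_lintegral_rpow_enorm_toReal hpne ENNReal.ofReal_ne_top,
      ENNReal.toReal_ofReal hp0.le]
    have h1 : ∫⁻ x, ‖1 + ε * f0 x‖ₑ ^ p ∂μ ≤
        ENNReal.ofReal (1 + (p - 1) * ε ^ 2 * ∫ x, f0 x ^ 2 ∂μ) := by
      rw [← hint, ofReal_integral_eq_lintegral_ofReal hI]
      · refine lintegral_mono fun x => ?_
        rw [Real.enorm_eq_ofReal (hpos x).le, ENNReal.ofReal_rpow_of_pos (hpos x)]
        exact ENNReal.ofReal_le_ofReal (bern p _ hp hp2 (by linarith [hpos x]))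
      · refine Filter.Eventually.of_forall fun x => ?_
        exact (Real.rpow_nonneg (hpos x).le p).trans (bern p _ hp hp2 (by linarith [hpos x]))
    refine (ENNReal.rpow_le_rpow h1 (by positivity)).trans ?_
    rw [ENNReal.ofReal_rpow_of_pos (by linarith)]
    refine ENNReal.ofReal_le_ofReal ?_
    calc (1 + (p - 1) * ε ^ 2 * ∫ x, f0 x ^ 2 ∂μ) ^ (1 / p)
        ≤ (1 + (p - 1) * ε ^ 2 * ∫ x, f0 x ^ 2 ∂μ) ^ (1:ℝ) :=
          Real.rpow_le_rpow_of_exponent_le (by linarith) (by
            rw [div_le_one hp0]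
            exact hp.le)
      _ = _ := Real.rpow_one _
  have hsplit : (fun x => 1 + ε * f x) =
      (fun x => 1 + ε * f0 x) + ε • (fun x => f x - f0 x) := by
    funext x
    simp only [Pi.add_apply, Pi.smul_apply, smul_eq_mul]
    ring
  rw [hsplit]
  refine (eLpNorm_add_le ?_ ?_ hp1).trans ?_
  · exact (measurable_const.add (hf0.const_mul ε)).aestronglyMeasurable
  · exact ((hf.sub hf0).const_smul ε).aestronglyMeasurable
  · refine add_le_add key ?_
    rw [eLpNorm_const_smul, Real.enorm_eq_ofReal_abs]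

end Pool.Agent.H22.HD
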